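import Mathlib

set_option autoImplicit false

namespace Pool.Agent.Results.MP_25c86d_nt.OddPrimes

open Polynomial

/-- the ring `R_{σ,n} = ℤ_n[x]/(x^σ - 1)` -/
abbrev Rn (σ n : ℕ) := AdjoinRoot (X ^ σ - 1 : (ZMod n)[X])

/-- the element `a + b x` of `R_{σ,n}` -/
noncomputable def elt (σ n : ℕ) (a b : ZMod n) : Rn σ n := AdjoinRoot.mk _ (C a + C b * X)

/-- the period `Π_σ(a,b;n)` -/
noncomputable def per (σ n : ℕ) (a b : ZMod n) : ℕ :=
  sInf {k | 1 ≤ k ∧ ∃ l, elt σ n a b ^ (k + l) = elt σ n a b ^ l}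

/-- the maximal period `π_σ(n)` -/
noncomputable def maxPer (σ n : ℕ) : ℕ :=
  sSup (Set.range fun ab : ZMod n × ZMod n => per σ n ab.1 ab.2)

section gen
variable {R : Type} [CommRing R]

def D (n : ℕ) (u : R) (k : ℕ) : Prop := ∃ l, (n : R) ∣ u ^ (k + l) - u ^ l

noncomputable def O (n : ℕ) (u : R) : ℕ :=
  orderOf (Ideal.Quotient.mk (Ideal.span {(n : Localization.Away u)}) (algebraMap R _ u))

theorem D_iff (n : ℕ) (u : R) (k : ℕ) :
    D n u k ↔ (n : Localization.Away u) ∣ algebraMap R _ u ^ k - 1 := by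
  have hu := IsLocalization.Away.algebraMap_isUnit (S := Localization.Away u) u
  constructor
  · rintro ⟨l, h⟩
    have := map_dvd (algebraMap R (Localization.Away u)) h
    rw [map_natCast, map_sub, map_pow, map_pow, pow_add, ← sub_one_mul] at this
    exact (hu.pow l).dvd_mul_right.1 this
  · rintro ⟨s, h⟩
    obtain ⟨m, r, hr⟩ := IsLocalization.Away.surj u s
    obtain ⟨j, hj⟩ := IsLocalization.Away.exists_of_eq (S := Localization.Away u) u
      (a := (u ^ k - 1) * u ^ m) (b := n * r) (by simp [h, ← hr, mul_assoc])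
    exact ⟨j + m, u ^ j * r, by linear_combination hj⟩

theorem O_dvd (n : ℕ) (u : R) (k : ℕ) : O n u ∣ k ↔ D n u k := by
  rw [D_iff, O, orderOf_dvd_iff_pow_eq_one, ← map_pow, ← map_one (Ideal.Quotient.mk _),
    Ideal.Quotient.eq, Ideal.mem_span_singleton]

theorem D.mul {n : ℕ} {u : R} {k k' : ℕ} (h : D n u k) (h' : k ∣ k') : D n u k' :=
  (O_dvd ..).1 (((O_dvd ..).2 h).trans h')

theorem D.big {n : ℕ} {u : R} {k : ℕ} (h : D n u k) :
    ∃ l, ∀ l', l ≤ l' → (n : R) ∣ u ^ (k + l') - u ^ l' := by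
  obtain ⟨l, h⟩ := h
  refine ⟨l, fun l' hl => ?_⟩
  obtain ⟨j, rfl⟩ := Nat.exists_eq_add_of_le hl
  convert h.mul_right (u ^ j) using 1
  ring

theorem O_up (p m : ℕ) (u : R) : O (p ^ (m + 1)) u ∣ p ^ m * O p u := by
  have := dvd_sub_pow_of_dvd_sub ((D_iff ..).1 ((O_dvd p u _).1 dvd_rfl)) m
  rw [O_dvd, D_iff, mul_comm, pow_mul]
  simpa using this

theorem O_eq {p : ℕ} (hp : p.Prime) (h2 : p ≠ 2) (tf : ∀ r : R, p * r = 0 → r = 0) (m : ℕ) (u : R)
    (h : ¬D (p ^ 2) u (O p u)) : O (p ^ (m + 1)) u = p ^ m * O p u := by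
  have tf' : ∀ r : Localization.Away u, p * r = 0 → r = 0 := fun s hs => by
    obtain ⟨m, r, hr⟩ := IsLocalization.Away.surj u s
    obtain ⟨j, hj⟩ := IsLocalization.Away.exists_of_eq (S := Localization.Away u) u
      (a := p * r) (b := 0) (by simp [← hr, ← mul_assoc, hs])
    have := congrArg (algebraMap R (Localization.Away u)) (tf (u ^ j * r) (by linear_combination hj))
    rw [map_mul, ← hr, map_pow, map_zero, mul_comm s, ← mul_assoc, ← pow_add] at this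
    exact ((IsLocalization.Away.algebraMap_isUnit u).pow _).mul_right_eq_zero.1 this
  have tk : ∀ (k : ℕ) (r : Localization.Away u), p ^ k * r = 0 → r = 0 := fun k => by
    induction k with
    | zero => simp
    | succ k ih => exact fun r hr => tf' _ (ih _ (by linear_combination hr))
  have a1 : O p u ∣ O (p ^ (m + 1)) u := by
    obtain ⟨l, hl⟩ := (O_dvd (p ^ (m + 1)) u _).1 dvd_rfl
    exact (O_dvd ..).2 ⟨l, .trans (by simp [pow_succ]) hl⟩
  obtain ⟨w, hw⟩ := (D_iff ..).1 ((O_dvd p u _).1 dvd_rfl)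
  obtain ⟨c, hc⟩ := a1
  have a2 := O_up p m u
  rcases Nat.eq_zero_or_pos (O p u) with h0 | h0
  · rw [hc, h0]; simp
  rw [hc, mul_comm, Nat.mul_dvd_mul_iff_right h0, Nat.dvd_prime_pow hp] at a2
  obtain ⟨j, hj, rfl⟩ := a2
  rcases hj.eq_or_lt with rfl | hj
  · rw [hc, mul_comm]
  refine (h ?_).elim
  have a3 := (D_iff ..).1 ((O_dvd (p ^ (m + 1)) u _).1 (dvd_of_eq hc))
  obtain ⟨y, hy⟩ := ZMod.exists_one_add_mul_pow_prime_pow_eq (R := Localization.Away u) (u := p) (v := p)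
    hp dvd_rfl (by rw [← sq, ← pow_succ]; exact pow_dvd_pow _ (by have := hp.two_le; omega)) w j
  rw [pow_mul, eq_add_of_sub_eq' hw, hy, add_sub_cancel_left] at a3
  obtain ⟨z, hz⟩ := a3
  obtain ⟨i, rfl⟩ := Nat.exists_eq_add_of_lt hj
  rw [D_iff, hw]
  refine ⟨p ^ i * z - y, ?_⟩
  have := tk (j + 1) (w + p * y - p ^ (i + 1) * z) (by push_cast at hz; linear_combination hz)
  push_cast
  linear_combination p * this

theorem frob {p : ℕ} (hp : p.Prime) (a b : ℤ) (z : R) (k : ℕ) :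
    (p : R) ∣ (a + b * z) ^ p ^ k - (a + b * z ^ p ^ k) := by
  have := Fact.mk hp
  have f : ∀ a : ℤ, (p : R) ∣ (a : R) ^ p ^ k - a := fun a => by
    have : (p : ℤ) ∣ a ^ p ^ k - a := (ZMod.intCast_zmod_eq_zero_iff_dvd _ _).1 (by simp)
    simpa using map_dvd (Int.castRingHom R) this
  obtain ⟨r, hr⟩ := exists_add_pow_prime_pow_eq hp (a : R) (b * z) k
  obtain ⟨r1, h1⟩ := f a
  obtain ⟨r2, h2⟩ := f b
  exact ⟨r1 + r2 * z ^ p ^ k + a * (b * z) * r, by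
    rw [hr, mul_pow]; linear_combination h1 + z ^ p ^ k * h2⟩

theorem unit_of {p : ℕ} (hp : p.Prime) {a : ℤ} (ha : ¬(p : ℤ) ∣ a) {r : R} (h : (p : R) ∣ a * r) :
    (p : R) ∣ r := by
  have : IsCoprime (p : R) (a : R) := by
    simpa using ((Nat.prime_iff_prime_int.1 hp).irreducible.coprime_iff_not_dvd.2 ha).map
      (Int.castRingHom R)
  exact this.dvd_of_dvd_mul_left h

open AddMonoidAlgebra in
theorem nondeg {p : ℕ} (hp : p.Prime) (tf : ∀ r : R, p * r = 0 → r = 0) (s : ℕ) {x : R}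
    (hx : IsUnit x) (ψ : R →+* AddMonoidAlgebra R (ZMod (p ^ (s + 1)))) (hψ : ψ x = single 1 x)
    {a b : ℤ} (ha : ¬(p : ℤ) ∣ a) (hb : ¬(p : ℤ) ∣ b) {T : ℕ} (hT : ¬p ∣ T)
    (h : D (p ^ 2) (a + b * x) (p ^ (s + 1) * T)) : ∃ N, (p : R) ∣ (a + b * x) ^ N := by
  obtain ⟨L, h⟩ := h.big
  have p1 := hp.one_lt
  have h := map_dvd ψ (h (p ^ (s + 1) * (p * L)) (by
    rw [← mul_assoc]; exact Nat.le_mul_of_pos_left _ (by positivity)))
  simp only [map_sub, map_pow, map_add, map_mul, map_intCast, map_natCast, hψ, Nat.cast_pow,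
    ← mul_add, pow_mul] at h
  have a1 := dvd_sub_pow_of_dvd_sub (frob hp a b (single (1 : ZMod (p ^ (s + 1))) x) s) 1
  rw [← pow_mul, ← pow_add, pow_one, add_comm _ ((b : AddMonoidAlgebra R (ZMod (p ^ (s + 1)))) * _ ^ p ^ s),
    add_pow_prime_eq' hp] at a1
  generalize ((a : AddMonoidAlgebra R (ZMod (p ^ (s + 1)))) + b * single (1 : ZMod (p ^ (s + 1))) x) ^ p ^ (s + 1) = U
    at a1 h
  let c : R := (b * x ^ p ^ s) ^ p + a ^ p
  have ci : ∀ a : ℤ, (a : AddMonoidAlgebra R (ZMod (p ^ (s + 1)))) = single 0 (a : R) :=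
    fun a => (map_intCast (singleZeroRingHom (R := R) (M := ZMod (p ^ (s + 1)))) a).symm
  have cn : ∀ a : ℕ, (a : AddMonoidAlgebra R (ZMod (p ^ (s + 1)))) = single 0 (a : R) :=
    fun a => (map_natCast (singleZeroRingHom (R := R) (M := ZMod (p ^ (s + 1)))) a).symm
  have a2 : ((b : AddMonoidAlgebra R (ZMod (p ^ (s + 1)))) * single (1 : ZMod (p ^ (s + 1))) x ^ p ^ s) ^ p +
      (a : AddMonoidAlgebra R (ZMod (p ^ (s + 1)))) ^ p = single 0 c := by
    simp only [ci, single_pow, single_mul_single, c, single_add, smul_zero, zero_add, smul_smul]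
    rw [← pow_succ', nsmul_one, ZMod.natCast_self]
  rw [a2] at a1
  have a3 : (∑ k ∈ Finset.Ioo 0 p, ((b : AddMonoidAlgebra R (ZMod (p ^ (s + 1)))) *
      single (1 : ZMod (p ^ (s + 1))) x ^ p ^ s) ^ k *
      (a : AddMonoidAlgebra R (ZMod (p ^ (s + 1)))) ^ (p - k) *
      ((p.choose k / p : ℕ) : AddMonoidAlgebra R (ZMod (p ^ (s + 1))))).coeff
      (p ^ s : ℕ) = (b * a ^ (p - 1) : ℤ) * x ^ p ^ s := by
    simp only [ci, cn, single_pow, single_mul_single, smul_zero, zero_add, smul_smul, add_zero,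
      nsmul_one, AddMonoidAlgebra.coeff_sum, coeff_single, nsmul_eq_mul, ← Nat.cast_mul, Finsupp.finsetSum_apply]
    rw [Finset.sum_eq_single 1]
    · simp [Nat.div_self hp.pos]; ring
    · intro k hk k1
      refine Finsupp.single_eq_of_ne' fun e => k1 ?_
      have hk := Finset.mem_Ioo.1 hk
      have pp : 0 < p ^ s := by positivity
      rw [mul_one, ← Nat.cast_mul, ZMod.natCast_eq_natCast_iff', Nat.mod_eq_of_lt (by rw [pow_succ]; nlinarith),
        Nat.mod_eq_of_lt (by rw [pow_succ]; nlinarith)] at e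
      exact (Nat.mul_eq_right pp.ne').1 e
    · simp [p1]
  generalize (∑ k ∈ Finset.Ioo 0 p, ((b : AddMonoidAlgebra R (ZMod (p ^ (s + 1)))) *
      single (1 : ZMod (p ^ (s + 1))) x ^ p ^ s) ^ k *
      (a : AddMonoidAlgebra R (ZMod (p ^ (s + 1)))) ^ (p - k) *
      ((p.choose k / p : ℕ) : AddMonoidAlgebra R (ZMod (p ^ (s + 1))))) = H at a1 a3
  obtain ⟨C0, hC⟩ : ∃ C0 : AddMonoidAlgebra R (ZMod (p ^ (s + 1))), C0 = single 0 c := ⟨_, rfl⟩
  rw [← hC] at a1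
  have a4 : ∀ n : ℕ, (p : AddMonoidAlgebra R (ZMod (p ^ (s + 1)))) ^ 2 ∣
      U ^ n - (C0 ^ n + C0 ^ (n - 1) * (p * H) * n) := fun n => by
    have b1 := a1.trans (sub_dvd_pow_sub_pow _ _ n)
    have b2 := (pow_dvd_pow_of_dvd (dvd_mul_right _ H) 2).trans
      (sq_dvd_add_pow_sub_sub (p * H) C0 n)
    convert dvd_add b1 b2 using 1
    ring
  obtain ⟨W, hW⟩ := dvd_add (dvd_add (dvd_sub h (a4 (T + p * L))) (a4 (p * L)))
    (dvd_mul_right _ (C0 ^ (p * L - 1) * H * (L : AddMonoidAlgebra R (ZMod (p ^ (s + 1))))))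
  have a5 : C0 ^ (T + p * L) - C0 ^ (p * L) +
      C0 ^ (T + p * L - 1) * p * (T + p * L : ℕ) * H = p ^ 2 * W := by
    rw [← hW, pow_mul U]; push_cast; ring
  have a6 := congrArg (fun f : AddMonoidAlgebra R (ZMod (p ^ (s + 1))) => f.coeff (p ^ s : ℕ)) a5
  have k0 : ((p ^ s : ℕ) : ZMod (p ^ (s + 1))) ≠ 0 := by
    rw [Ne, ZMod.natCast_eq_zero_iff, Nat.pow_dvd_pow_iff_le_right p1]; omega
  simp only [hC, cn, single_pow, single_mul_single, smul_zero, add_zero, AddMonoidAlgebra.coeff_add,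
    AddMonoidAlgebra.coeff_sub,
    coeff_single, Finsupp.add_apply, Finsupp.sub_apply, Finsupp.single_eq_of_ne k0,
    coeff_single_zero_mul, a3, sub_zero, zero_add] at a6
  have a7 := tf (((T + p * L : ℕ) : ℤ) * ((b * a ^ (p - 1) : ℤ) * (c ^ (T + p * L - 1) * x ^ p ^ s)) -
    p * W.coeff (p ^ s : ℕ)) (by push_cast at a6 ⊢; linear_combination a6)
  have pr := Nat.prime_iff_prime_int.1 hp
  have a8 := (hx.pow _).dvd_mul_right.1 (unit_of hp (fun e => (pr.dvd_or_dvd e).elim hb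
    fun e => ha (pr.dvd_of_dvd_pow e)) (unit_of hp (fun e => hT
      ((Nat.dvd_add_left (dvd_mul_right p L)).1 (by exact_mod_cast e))) ⟨_, sub_eq_zero.1 a7⟩))
  refine ⟨p ^ s * p * (T + p * L - 1), ?_⟩
  obtain ⟨r, hr⟩ := exists_add_pow_prime_eq hp ((b : R) * x ^ p ^ s) a
  have a9 : (p : R) ∣ ((a + b * x) ^ p ^ s) ^ p - c := by
    convert dvd_add ((frob hp a b x s).trans (sub_dvd_pow_sub_pow _ _ p))
      (dvd_mul_right (p : R) (b * x ^ p ^ s * a * r)) using 1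
    rw [add_comm (a : R) (_ * _ ^ _), hr]; ring
  rw [pow_mul, pow_mul]
  simpa using dvd_add (a9.trans (sub_dvd_pow_sub_pow _ _ (T + p * L - 1))) a8

end gen

abbrev RZ (σ : ℕ) := AdjoinRoot (X ^ σ - 1 : ℤ[X])

noncomputable def xx (σ : ℕ) : RZ σ := AdjoinRoot.root _

noncomputable def uu (σ : ℕ) (a b : ℤ) : RZ σ := a + b * xx σ

theorem xx_pow (σ : ℕ) : xx σ ^ σ = 1 := by
  have := AdjoinRoot.eval₂_root (X ^ σ - 1 : ℤ[X])
  simpa [sub_eq_zero, xx] using this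

theorem ex_hom (σ : ℕ) {S : Type} [CommRing S] (y : S) (h : y ^ σ = 1) :
    ∃ ψ : RZ σ →+* S, ψ (xx σ) = y :=
  ⟨AdjoinRoot.lift (Int.castRingHom S) y (by simp [h]), AdjoinRoot.lift_root _⟩

theorem tfZ {σ p : ℕ} (hσ : 1 ≤ σ) (hp : p ≠ 0) (r : RZ σ) (h : p * r = 0) : r = 0 := by
  have := (monic_X_pow_sub_C (1 : ℤ) (by omega : σ ≠ 0)).free_adjoinRoot
  rw [C_1] at this
  rw [← nsmul_eq_mul, ← Nat.cast_smul_eq_nsmul ℤ, smul_eq_zero] at h
  exact h.resolve_left (by exact_mod_cast hp)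

theorem per_eq (σ n : ℕ) (a b : ℤ) : per σ n a b = O n (uu σ a b) := by
  let φ : RZ σ →+* Rn σ n := AdjoinRoot.map (Int.castRingHom _) _ _ (by simp)
  have φm : ∀ f, φ (AdjoinRoot.mk _ f) = AdjoinRoot.mk _ (f.map (Int.castRingHom _)) := fun f => by
    rw [← AdjoinRoot.aeval_eq (f.map _), aeval_def, eval₂_map]
    exact AdjoinRoot.lift_mk _ _
  have k : ∀ r, φ r = 0 ↔ (n : RZ σ) ∣ r := fun r => by
    refine ⟨fun h => ?_, ?_⟩
    · obtain ⟨f, rfl⟩ := AdjoinRoot.mk_surjective r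
      rw [φm, AdjoinRoot.mk_eq_zero] at h
      obtain ⟨g, hg⟩ := h
      obtain ⟨g, rfl⟩ := map_surjective (Int.castRingHom (ZMod n)) ZMod.intCast_surjective g
      have : C (n : ℤ) ∣ f - (X ^ σ - 1) * g := (C_dvd_iff_dvd_coeff _ _).2 fun i =>
        (ZMod.intCast_zmod_eq_zero_iff_dvd _ _).1 (by
          rw [← eq_intCast (Int.castRingHom _), ← coeff_map]
          simp only [Polynomial.map_sub, hg]
          simp)
      have := map_dvd (AdjoinRoot.mk (X ^ σ - 1)) this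
      rw [map_sub, map_mul, AdjoinRoot.mk_self] at this
      simpa using this
    · rintro ⟨s, rfl⟩
      rw [map_mul, map_natCast, ← map_natCast (AdjoinRoot.of _), ZMod.natCast_self, map_zero,
        zero_mul]
  have e : elt σ n a b = φ (uu σ a b) := by
    have := φm (C a + C b * X)
    simpa [elt, uu, xx] using this.symm
  have : ∀ k, (∃ l, elt σ n a b ^ (k + l) = elt σ n a b ^ l) ↔ O n (uu σ a b) ∣ k := fun j => by
    simp only [O_dvd, D, e, ← k, map_sub, map_pow, sub_eq_zero]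
  simp only [per, this]
  rcases Nat.eq_zero_or_pos (O n (uu σ a b)) with h | h
  · rw [h, Nat.sInf_eq_zero]
    exact Or.inr (Set.eq_empty_of_forall_notMem fun k hk => by
      have := hk.1; have := zero_dvd_iff.1 hk.2; omega)
  · exact IsLeast.csInf_eq ⟨⟨h, dvd_rfl⟩, fun k hk => Nat.le_of_dvd hk.1 hk.2⟩

variable {σ p : ℕ}

theorem O_bd (hp : p.Prime) (hσ : 1 ≤ σ) : ∃ s T, 0 < T ∧ ¬p ∣ T ∧ p ^ s ∣ σ ∧
    ∀ a b, O p (uu σ a b) ∣ p ^ s * T := by
  obtain ⟨s, t, h1, rfl⟩ := Nat.exists_eq_pow_mul_and_not_dvd (by omega : σ ≠ 0) p hp.ne_one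
  have t0 : 0 < t := Nat.pos_of_mul_pos_left hσ
  have f0 : 0 < t.totient := Nat.totient_pos.2 t0
  have e := Nat.ModEq.pow_totient ((Nat.Prime.coprime_iff_not_dvd hp).2 h1)
  have p1 : 1 < p ^ t.totient := Nat.one_lt_pow f0.ne' hp.one_lt
  obtain ⟨T, hT⟩ := Nat.exists_eq_add_of_le p1.le
  refine ⟨s, T, by omega, fun h => hp.one_lt.ne' (Nat.dvd_one.1 ((Nat.dvd_add_left h).1
    (hT ▸ dvd_pow_self p f0.ne'))), dvd_mul_right _ _, fun a b => (O_dvd ..).2 ⟨p ^ s, ?_⟩⟩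
  obtain ⟨c, hc⟩ : t ∣ T := by simpa [hT] using (Nat.modEq_iff_dvd' p1.le).1 e.symm
  have a1 : p ^ s * T + p ^ s = p ^ (s + t.totient) := by rw [pow_add, hT]; ring
  have a2 : xx (p ^ s * t) ^ p ^ (s + t.totient) = xx (p ^ s * t) ^ p ^ s := by
    rw [← a1, hc, ← mul_assoc, pow_add, pow_mul _ (p ^ s * t), xx_pow, one_pow, one_mul]
  have := dvd_sub (frob hp a b (xx (p ^ s * t)) (s + t.totient)) (frob hp a b (xx (p ^ s * t)) s)
  rw [a2] at this
  simpa [a1, uu] using this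

theorem case2 (hp : p.Prime) (hσ : 1 ≤ σ) (a b : ℤ) (h1 : ¬∃ N, (p : RZ σ) ∣ uu σ a b ^ N)
    (h2 : ¬p ∣ O p (uu σ a b)) : ∃ a' b', O p (uu σ a b) ≤ O p (uu σ a' b') ∧
      ¬D (p ^ 2) (uu σ a' b') (O p (uu σ a' b')) := by
  by_contra! hc
  have e : uu σ (a * (1 + p)) (b * (1 + p)) = uu σ a b * (1 + p) := by simp [uu]; ring
  have d : ∀ n, (p : RZ σ) ∣ (uu σ a b * (1 + p)) ^ n - uu σ a b ^ n := fun n =>
    .trans ⟨uu σ a b, by ring⟩ (sub_dvd_pow_sub_pow _ _ n)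
  have o : O p (uu σ (a * (1 + p)) (b * (1 + p))) = O p (uu σ a b) := by
    rw [e]
    refine Nat.dvd_antisymm ((O_dvd ..).2 ?_) ((O_dvd ..).2 ?_)
    · obtain ⟨l, h⟩ := (O_dvd p (uu σ a b) _).1 dvd_rfl
      exact ⟨l, by simpa using dvd_sub (dvd_add (d (O p (uu σ a b) + l)) h) (d l)⟩
    · obtain ⟨l, h⟩ := (O_dvd p (uu σ a b * (1 + p)) _).1 dvd_rfl
      exact ⟨l, by
        convert dvd_add (dvd_sub h (d (O p (uu σ a b * (1 + p)) + l))) (d l) using 1; abel⟩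
  obtain ⟨l, a1⟩ := (hc a b le_rfl).big
  obtain ⟨l', a2⟩ := (hc _ _ o.ge).big
  have a1 := a1 _ (le_max_left l l')
  have a2 := a2 _ (le_max_right l l')
  rw [o, e] at a2
  generalize O p (uu σ a b) = T at *
  generalize uu σ a b = u at *
  generalize max l l' = L at *
  have c : IsCoprime ((p : RZ σ) ^ 2) ((1 + p) ^ L) :=
    IsCoprime.pow ⟨-1, 1, by ring⟩
  push_cast at a1 a2
  obtain ⟨w1, b1⟩ := a1
  obtain ⟨w2, b2⟩ := c.dvd_of_dvd_mul_left (z := u ^ (T + L) * (1 + p) ^ T - u ^ L)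
    (by convert a2 using 1; simp only [mul_pow]; ring)
  obtain ⟨w3, b3⟩ := sq_dvd_add_pow_sub_sub (p : RZ σ) 1 T
  have := tfZ hσ hp.ne_zero ((T : ℤ) * u ^ (T + L) - p * (w2 - w1 - u ^ (T + L) * w3)) (by
    push_cast; linear_combination b2 - b1 - u ^ (T + L) * b3)
  exact h1 ⟨_, unit_of hp (by exact_mod_cast h2) ⟨_, sub_eq_zero.1 this⟩⟩

theorem case3 (hp : p.Prime) (hσ : 1 ≤ σ) (a b : ℤ) (h1 : ¬∃ N, (p : RZ σ) ∣ uu σ a b ^ N)
    (h2 : p ∣ O p (uu σ a b)) (ha : ¬(p : ℤ) ∣ a) (hb : ¬(p : ℤ) ∣ b) :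
    ¬D (p ^ 2) (uu σ a b) (O p (uu σ a b)) := fun h => by
  obtain ⟨s, T, -, a1, ⟨t, ht⟩, a3⟩ := O_bd hp hσ
  cases s with
  | zero => exact a1 (by simpa using h2.trans (a3 a b))
  | succ s =>
    obtain ⟨ψ, hψ⟩ := ex_hom σ (AddMonoidAlgebra.single (1 : ZMod (p ^ (s + 1))) (xx σ)) (by
      rw [AddMonoidAlgebra.single_pow, xx_pow, nsmul_one, ht, Nat.cast_mul, ZMod.natCast_self,
        zero_mul]; rfl)
    exact h1 (nondeg hp (tfZ hσ hp.ne_zero) s (IsUnit.of_pow_eq_one (xx_pow σ) (by omega)) ψ hψ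
      ha hb a1 (h.mul (a3 a b)))

theorem main (hp : p.Prime) (p2 : p ≠ 2) (hσ : 1 ≤ σ) (a b : ℤ) : ∃ a' b',
    O p (uu σ a b) ≤ O p (uu σ a' b') ∧ ¬D (p ^ 2) (uu σ a' b') (O p (uu σ a' b')) := by
  have := Fact.mk hp
  obtain ⟨ev, hev⟩ := ex_hom σ (1 : ZMod p) (one_pow _)
  have ev0 : ∀ r, (p : RZ σ) ∣ r → ev r = 0 := by rintro _ ⟨r, rfl⟩; simp
  have pos : ∀ a b, 0 < O p (uu σ a b) := fun a b => by
    obtain ⟨s, T, a0, -, -, a3⟩ := O_bd hp hσ
    exact Nat.pos_of_dvd_of_pos (a3 a b) (by have := hp.pos; positivity)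
  by_cases h1 : ∃ N, (p : RZ σ) ∣ uu σ a b ^ N
  · have o : O p (uu σ 1 0) = 1 := Nat.dvd_one.1 ((O_dvd ..).2 ⟨0, by simp [uu]⟩)
    obtain ⟨a', b', k1, k2⟩ := case2 hp hσ 1 0 (by
      rintro ⟨N, h⟩
      simpa [uu] using ev0 _ h) (by rw [o]; exact hp.not_dvd_one)
    obtain ⟨N, h⟩ := h1
    have : O p (uu σ a b) ∣ 1 := (O_dvd ..).2 ⟨N, by
      rw [pow_add]; exact dvd_sub (h.mul_left _) h⟩
    exact ⟨a', b', (Nat.le_of_dvd one_pos this).trans (o ▸ k1), k2⟩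
  by_cases h2 : p ∣ O p (uu σ a b)
  swap
  · exact case2 hp hσ a b h1 h2
  have fer : ∀ a : ℤ, ¬(p : ℤ) ∣ a → (p : RZ σ) ∣ (a : RZ σ) ^ (p - 1) - 1 := fun a ha => by
    simpa using map_dvd (Int.castRingHom (RZ σ))
      (Int.ModEq.pow_card_sub_one_eq_one hp
        ((Nat.prime_iff_prime_int.1 hp).irreducible.coprime_iff_not_dvd.2 ha).symm).symm.dvd
  by_cases ha : (p : ℤ) ∣ a
  swap
  · by_cases hb : (p : ℤ) ∣ b
    · have : O p (uu σ a b) ∣ p - 1 := (O_dvd ..).2 ⟨0, by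
        have : (p : RZ σ) ∣ uu σ a b - a := by
          simpa [uu] using (map_dvd (Int.castRingHom (RZ σ)) hb).mul_right _
        simpa using dvd_add (this.trans (sub_dvd_pow_sub_pow _ _ (p - 1))) (fer a ha)⟩
      have := Nat.le_of_dvd (by have := hp.two_le; omega) (h2.trans this)
      have := hp.two_le
      omega
    · exact ⟨a, b, le_rfl, case3 hp hσ a b h1 h2 ha hb⟩
  have ua : (p : RZ σ) ∣ uu σ a b - b * xx σ := by
    simpa [uu] using map_dvd (Int.castRingHom (RZ σ)) ha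
  have hb : ¬(p : ℤ) ∣ b := fun hb => h1 ⟨1, by
    simpa using dvd_add ua ((map_dvd (Int.castRingHom (RZ σ)) hb).mul_right (xx σ))⟩
  obtain ⟨g, hg⟩ := IsCyclic.exists_ofOrder_eq_natCard (α := (ZMod p)ˣ)
  rw [Nat.card_eq_fintype_card, ZMod.card_units] at hg
  have n2 : ¬(p : ℤ) ∣ 2 := fun h =>
    p2 ((Nat.prime_dvd_prime_iff_eq hp Nat.prime_two).1 (by exact_mod_cast h))
  have n2' : (2 : ZMod p) ≠ 0 := fun h => n2 ((ZMod.intCast_zmod_eq_zero_iff_dvd 2 p).1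
    (by exact_mod_cast h))
  obtain ⟨c, hc⟩ := ZMod.intCast_surjective ((g : ZMod p) / 2)
  have evc : ev (uu σ c c) = g := by simp [uu, hev, hc]; field_simp; ring
  have c0 : ¬(p : ℤ) ∣ c := fun h => by
    rw [← ZMod.intCast_zmod_eq_zero_iff_dvd, hc] at h
    simp [n2'] at h
  obtain ⟨l, hl⟩ := (O_dvd p (uu σ c c) _).1 dvd_rfl
  have d1 : p - 1 ∣ O p (uu σ c c) := by
    have := ev0 _ hl
    rw [map_sub, map_pow, map_pow, evc, sub_eq_zero, pow_add, mul_eq_right₀ (by simp)] at this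
    rw [← hg, orderOf_dvd_iff_pow_eq_one]
    exact Units.ext (by simpa using this)
  have d2 : (p : RZ σ) ∣ xx σ ^ O p (uu σ c c) - 1 := by
    generalize O p (uu σ c c) = T at *
    have xi : xx σ ^ (σ - 1) * xx σ = 1 := by rw [← pow_succ, Nat.sub_add_cancel hσ, xx_pow]
    obtain ⟨ι, hι⟩ := ex_hom σ (xx σ ^ (σ - 1)) (by rw [← pow_mul, mul_comm, pow_mul, xx_pow, one_pow])
    have e : uu σ c c = ι (uu σ c c) * xx σ := by
      simp only [uu, map_add, map_mul, map_intCast, hι]; linear_combination -c * xi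
    have a1 := (map_dvd ι hl).mul_right (xx σ ^ (T + l))
    rw [map_natCast, map_sub, map_pow, map_pow, sub_mul, ← mul_pow, ← e, pow_add (xx σ),
      mul_left_comm, ← mul_pow, ← e] at a1
    have a2 : (p : RZ σ) ∣ ((c ^ l : ℤ) : RZ σ) * ((1 + xx σ) ^ l * (xx σ ^ T - 1)) := by
      convert dvd_sub hl a1 using 1
      rw [show uu σ c c = c * (1 + xx σ) by simp [uu]; ring]; push_cast; simp only [mul_pow]; ring
    have a3 := unit_of hp (fun e => c0 ((Nat.prime_iff_prime_int.1 hp).dvd_of_dvd_pow e)) a2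
    have a4 : (p : RZ σ) ∣ ((2 ^ (l + l) : ℤ) : RZ σ) * (xx σ ^ T - 1) := by
      rcases Nat.even_or_odd σ with k | k
      · obtain ⟨κ, hκ⟩ := ex_hom σ (-xx σ) (by rw [k.neg_pow, xx_pow])
        have a5 := map_dvd κ a3
        have ev : Even T := ((hp.even_sub_one p2).two_dvd.trans d1) |> even_iff_two_dvd.2
        simp only [map_natCast, map_mul, map_pow, map_add, map_one, map_sub, hκ, ev.neg_pow] at a5
        rw [show ((2 ^ (l + l) : ℤ) : RZ σ) = ((1 + xx σ) + (1 + -xx σ)) ^ (l + l) by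
          push_cast; ring, add_pow, Finset.sum_mul]
        refine Finset.dvd_sum fun i _ => ?_
        rcases le_total l i with k | k
        · obtain ⟨j, rfl⟩ := Nat.exists_eq_add_of_le k
          exact a3.trans ⟨(1 + xx σ) ^ j * (1 + -xx σ) ^ (l + l - (l + j)) *
            ((l + l).choose (l + j) : ℕ), by ring⟩
        · obtain ⟨j, hj⟩ := Nat.exists_eq_add_of_le (show l ≤ l + l - i by omega)
          exact a5.trans ⟨(1 + xx σ) ^ i * (1 + -xx σ) ^ j * ((l + l).choose i : ℕ), by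
            rw [hj]; ring⟩
      · have a5 := k.add_dvd_pow_add_pow (1 : RZ σ) (xx σ)
        rw [one_pow, xx_pow, one_add_one_eq_two] at a5
        push_cast
        exact a3.trans (mul_dvd_mul_right ((pow_dvd_pow_of_dvd a5 l).trans
          (pow_dvd_pow _ (by omega))) _)
    exact unit_of hp (fun e => n2 ((Nat.prime_iff_prime_int.1 hp).dvd_of_dvd_pow e)) a4
  have d3 : O p (uu σ a b) ∣ O p (uu σ c c) := (O_dvd ..).2 ⟨0, by
    obtain ⟨j, hj⟩ := d1
    have a1 := (fer b hb).trans (sub_dvd_pow_sub_pow _ _ j)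
    rw [← pow_mul, ← hj, one_pow] at a1
    convert dvd_add (dvd_add (ua.trans (sub_dvd_pow_sub_pow _ _ (O p (uu σ c c))))
      (a1.mul_right (xx σ ^ O p (uu σ c c)))) d2 using 1
    ring⟩
  refine ⟨c, c, Nat.le_of_dvd (pos _ _) d3, case3 hp hσ c c ?_ (h2.trans d3) c0 c0⟩
  rintro ⟨N, h⟩
  have := ev0 _ h
  simp [evc] at this

theorem maxPer_eq (hp : p.Prime) (p2 : p ≠ 2) (hσ : 1 ≤ σ) (m : ℕ) :
    maxPer σ (p ^ (m + 1)) = p ^ m * maxPer σ p := by
  have : NeZero p := ⟨hp.ne_zero⟩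
  have pos : ∀ a b, 0 < O p (uu σ a b) := fun a b => by
    obtain ⟨s, T, a0, -, -, a3⟩ := O_bd hp hσ
    exact Nat.pos_of_dvd_of_pos (a3 a b) (by have := hp.pos; positivity)
  have le : ∀ (n : ℕ) [NeZero n] (a b : ℤ), O n (uu σ a b) ≤ maxPer σ n := fun n _ a b =>
    le_csSup (Set.finite_range _).bddAbove ⟨(a, b), per_eq σ n a b⟩
  have ex : ∀ (n : ℕ) [NeZero n], ∃ a b : ℤ, O n (uu σ a b) = maxPer σ n := fun n _ => by
    obtain ⟨⟨a, b⟩, h⟩ := Nat.sSup_mem (Set.range_nonempty _)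
      (Set.finite_range fun ab : ZMod n × ZMod n => per σ n ab.1 ab.2).bddAbove
    obtain ⟨a, rfl⟩ := ZMod.intCast_surjective a
    obtain ⟨b, rfl⟩ := ZMod.intCast_surjective b
    exact ⟨a, b, (per_eq σ n a b).symm.trans h⟩
  refine le_antisymm ?_ ?_
  · obtain ⟨a, b, h⟩ := ex (p ^ (m + 1))
    rw [← h]
    exact (Nat.le_of_dvd (by have := hp.pos; have := pos a b; positivity) (O_up p m _)).trans
      (Nat.mul_le_mul_left _ (le p a b))
  · obtain ⟨a, b, h⟩ := ex p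
    obtain ⟨a', b', k1, k2⟩ := main hp p2 hσ a b
    refine le_trans ?_ (le _ a' b')
    rw [O_eq hp p2 (tfZ hσ hp.ne_zero) m _ k2, ← h]
    exact Nat.mul_le_mul_left _ k1

theorem result : ∀ p : ℕ, p.Prime → p ≠ 2 → ∀ σ m : ℕ, 1 ≤ σ → 2 ≤ m →
    maxPer σ (p ^ m) = p * maxPer σ (p ^ (m - 1)) := by
  intro p hp p2 σ m hσ hm
  obtain ⟨m, rfl⟩ := Nat.exists_eq_add_of_le' hm
  rw [show m + 2 - 1 = m + 1 from rfl, maxPer_eq hp p2 hσ, maxPer_eq hp p2 hσ]
  ring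

end Pool.Agent.Results.MP_25c86d_nt.OddPrimes
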